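import Mathlib

set_option autoImplicit false

open Finset
open scoped BigOperators

namespace Pool.Agent.Lib.MP_de5887_an

variable {ι : Type*} [Fintype ι] [DecidableEq ι]

/-- The sign of a bit. -/
def sg (b : Bool) : ℝ := if b then 1 else -1

lemma sg_sq (b : Bool) : sg b ^ 2 = 1 := by cases b <;> simp [sg]

lemma sg_not (b : Bool) : sg (!b) = -sg b := by cases b <;> simp [sg]

lemma sg_cases (b : Bool) : sg b = 1 ∨ sg b = -1 := by cases b <;> simp [sg]

lemma abs_sg (b : Bool) : |sg b| = 1 := by cases b <;> simp [sg]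

/-- The multilinear polynomial in the variables `V` with coefficients `a`, at a real point. -/
def mev (V : Finset ι) (a : Finset ι → ℝ) (z : ι → ℝ) : ℝ :=
  ∑ T ∈ V.powerset, a T * ∏ i ∈ T, z i

/-- The same polynomial at a point of the cube. -/
def ev (V : Finset ι) (a : Finset ι → ℝ) (x : ι → Bool) : ℝ := mev V a fun i => sg (x i)

omit [Fintype ι] in
lemma mev_insert {V : Finset ι} {i : ι} (hi : i ∉ V) (a : Finset ι → ℝ) (z : ι → ℝ) :
    mev (insert i V) a z = mev V a z + z i * mev V (fun T => a (insert i T)) z := by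
  unfold mev
  rw [sum_powerset_insert hi, mul_sum]
  congr 1
  refine sum_congr rfl fun T hT => ?_
  rw [prod_insert (fun h => hi (mem_powerset.1 hT h))]
  ring

omit [Fintype ι] [DecidableEq ι] in
lemma mev_congr {V : Finset ι} (a : Finset ι → ℝ) {z z' : ι → ℝ} (h : ∀ i ∈ V, z i = z' i) :
    mev V a z = mev V a z' := by
  unfold mev
  refine sum_congr rfl fun T hT => ?_
  rw [prod_congr rfl fun i hi => h i (mem_powerset.1 hT hi)]

omit [Fintype ι] [DecidableEq ι] in
lemma mev_add_mul (V : Finset ι) (a b : Finset ι → ℝ) (c : ℝ) (z : ι → ℝ) :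
    mev V (fun T => a T + c * b T) z = mev V a z + c * mev V b z := by
  unfold mev
  rw [mul_sum, ← sum_add_distrib]
  exact sum_congr rfl fun T _ => by ring

omit [Fintype ι] in
lemma ev_insert {V : Finset ι} {i : ι} (hi : i ∉ V) (a : Finset ι → ℝ) (x : ι → Bool) :
    ev (insert i V) a x = ev V a x + sg (x i) * ev V (fun T => a (insert i T)) x :=
  mev_insert hi a _

omit [Fintype ι] in
lemma ev_update {V : Finset ι} {i : ι} (hi : i ∉ V) (a : Finset ι → ℝ) (x : ι → Bool) (b : Bool) :
    ev V a (Function.update x i b) = ev V a x :=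
  mev_congr a fun j hj => by
    rw [Function.update_of_ne (ne_of_mem_of_not_mem hj hi)]

/-- Flipping one coordinate. -/
def flip (i : ι) : (ι → Bool) ≃ (ι → Bool) :=
  Function.Involutive.toPerm (fun x => Function.update x i (!x i)) fun x => by
    funext j
    by_cases h : j = i
    · subst h; simp
    · simp [Function.update_of_ne h]

lemma expect_sg_mul (i : ι) (F : (ι → Bool) → ℝ)
    (hF : ∀ x b, F (Function.update x i b) = F x) : 𝔼 x, sg (x i) * F x = 0 := by
  have h : 𝔼 x, sg (x i) * F x = 𝔼 x, -(sg (x i) * F x) := by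
    refine Fintype.expect_equiv (flip i) _ _ fun x => ?_
    have h1 : flip i x = Function.update x i (!x i) := rfl
    rw [h1, hF, Function.update_self, sg_not]
    ring
  rw [expect_neg_distrib] at h
  linarith

lemma expect_eq_of_flip (i : ι) (F G H : (ι → Bool) → ℝ)
    (hH : ∀ x b, H (Function.update x i b) = H x) (h : ∀ x, F x = G x + sg (x i) * H x) :
    𝔼 x, F x = 𝔼 x, G x := by
  have h0 := expect_sg_mul i H hH
  rw [expect_congr rfl fun x _ => h x, expect_add_distrib, h0, add_zero]

/-- Plancherel. -/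
lemma expect_ev_mul (V : Finset ι) (a b : Finset ι → ℝ) :
    𝔼 x, ev V a x * ev V b x = ∑ T ∈ V.powerset, a T * b T := by
  induction V using Finset.induction_on generalizing a b with
  | empty => simp [ev, mev]
  | insert i V hi ih =>
    rw [sum_powerset_insert hi, ← ih, ← ih]
    rw [← expect_add_distrib]
    refine expect_eq_of_flip i _ _ (fun x => ev V a x * ev V (fun T => b (insert i T)) x +
      ev V (fun T => a (insert i T)) x * ev V b x) (fun x c => by simp only [ev_update hi])
      fun x => ?_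
    rw [ev_insert hi, ev_insert hi]
    linear_combination (ev V (fun T => a (insert i T)) x * ev V (fun T => b (insert i T)) x) *
      sg_sq (x i)

lemma expect_ev_sq (V : Finset ι) (a : Finset ι → ℝ) :
    𝔼 x, ev V a x ^ 2 = ∑ T ∈ V.powerset, a T ^ 2 := by
  simp only [sq]; exact expect_ev_mul V a a

/-- Bonami's lemma, weighted form. -/
lemma bonami (V : Finset ι) (a : Finset ι → ℝ) :
    𝔼 x, ev V a x ^ 4 ≤ (∑ T ∈ V.powerset, 3 ^ T.card * a T ^ 2) ^ 2 := by
  induction V using Finset.induction_on generalizing a with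
  | empty => simp [ev, mev]; apply le_of_eq; ring
  | insert i V hi ih =>
    set b : Finset ι → ℝ := fun T => a (insert i T) with hb
    have hs : ∑ T ∈ (insert i V).powerset, 3 ^ T.card * a T ^ 2 =
        ∑ T ∈ V.powerset, 3 ^ T.card * a T ^ 2 + 3 * ∑ T ∈ V.powerset, 3 ^ T.card * b T ^ 2 := by
      rw [sum_powerset_insert hi, mul_sum]
      congr 1
      refine sum_congr rfl fun T hT => ?_
      rw [card_insert_of_notMem (fun h => hi (mem_powerset.1 hT h))]
      ring
    rw [hs]
    have h1 := ih a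
    have h2 := ih b
    set α := ∑ T ∈ V.powerset, 3 ^ T.card * a T ^ 2
    set β := ∑ T ∈ V.powerset, 3 ^ T.card * b T ^ 2
    have hα : 0 ≤ α := sum_nonneg fun T _ => by positivity
    have hβ : 0 ≤ β := sum_nonneg fun T _ => by positivity
    have h3 : 𝔼 x, ev (insert i V) a x ^ 4 = 𝔼 x, ev V a x ^ 4 +
        6 * 𝔼 x, ev V a x ^ 2 * ev V b x ^ 2 + 𝔼 x, ev V b x ^ 4 := by
      rw [mul_expect, ← expect_add_distrib, ← expect_add_distrib]
      refine expect_eq_of_flip i _ _
        (fun x => 4 * ev V a x ^ 3 * ev V b x + 4 * ev V a x * ev V b x ^ 3)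
        (fun x c => by simp only [ev_update hi]) fun x => ?_
      rw [ev_insert hi]
      rcases sg_cases (x i) with h | h <;> rw [h] <;> ring
    have h4 : (𝔼 x, ev V a x ^ 2 * ev V b x ^ 2) ^ 2 ≤ (α * β) ^ 2 := by
      refine (expect_mul_sq_le_sq_mul_sq univ _ _).trans ?_
      rw [mul_pow]
      have e1 : 𝔼 x, (ev V a x ^ 2) ^ 2 = 𝔼 x, ev V a x ^ 4 :=
        expect_congr rfl fun x _ => by ring
      have e2 : 𝔼 x, (ev V b x ^ 2) ^ 2 = 𝔼 x, ev V b x ^ 4 :=
        expect_congr rfl fun x _ => by ring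
      rw [e1, e2]
      exact mul_le_mul h1 h2 (expect_nonneg fun x _ => by positivity) (by positivity)
    have h5 : 𝔼 x, ev V a x ^ 2 * ev V b x ^ 2 ≤ α * β :=
      le_of_sq_le_sq h4 (mul_nonneg hα hβ) |>.trans le_rfl
    rw [h3]
    nlinarith [sq_nonneg β]

lemma bonami_deg (V : Finset ι) (a : Finset ι → ℝ) (m : ℕ)
    (hm : ∀ T ∈ V.powerset, m < T.card → a T = 0) :
    𝔼 x, ev V a x ^ 4 ≤ 9 ^ m * (∑ T ∈ V.powerset, a T ^ 2) ^ 2 := by
  refine (bonami V a).trans ?_
  have h : ∑ T ∈ V.powerset, 3 ^ T.card * a T ^ 2 ≤ 3 ^ m * ∑ T ∈ V.powerset, a T ^ 2 := by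
    rw [mul_sum]
    refine sum_le_sum fun T hT => ?_
    rcases lt_or_ge m T.card with h | h
    · rw [hm T hT h]; simp
    · exact mul_le_mul_of_nonneg_right (pow_le_pow_right₀ (by norm_num) h) (sq_nonneg _)
  calc _ ≤ (3 ^ m * ∑ T ∈ V.powerset, a T ^ 2) ^ 2 :=
        pow_le_pow_left₀ (sum_nonneg fun T _ => by positivity) h 2
    _ = _ := by rw [mul_pow, ← pow_mul, mul_comm m 2, pow_mul]; norm_num

omit [Fintype ι] in
/-- Maximum principle for multilinear polynomials. -/
lemma abs_mev_le (V : Finset ι) (a : Finset ι → ℝ) {M : ℝ} (hM : ∀ x, |ev V a x| ≤ M)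
    {z : ι → ℝ} (hz : ∀ i, |z i| ≤ 1) : |mev V a z| ≤ M := by
  induction V using Finset.induction_on generalizing a with
  | empty => simpa [ev, mev] using hM fun _ => true
  | insert i V hi ih =>
    set b : Finset ι → ℝ := fun T => a (insert i T) with hb
    have key : ∀ c : Bool, |mev V a z + sg c * mev V b z| ≤ M := by
      intro c
      rw [← mev_add_mul]
      refine ih _ fun x => ?_
      have := hM (Function.update x i c)
      rw [ev_insert hi, ev_update hi, ev_update hi, Function.update_self] at this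
      unfold ev
      rw [mev_add_mul]
      exact this
    have h1 := abs_le.1 (key true)
    have h2 := abs_le.1 (key false)
    have h3 := abs_le.1 (hz i)
    simp only [sg, if_true, Bool.false_eq_true, if_false] at h1 h2
    rw [mev_insert hi, abs_le]
    constructor <;> nlinarith [h1.1, h1.2, h2.1, h2.2, h3.1, h3.2]

omit [Fintype ι] in
lemma sum_split {A B : Finset ι} (h : Disjoint A B) (F : Finset ι → ℝ) :
    ∑ S ∈ (A ∪ B).powerset, F S = ∑ s ∈ A.powerset, ∑ t ∈ B.powerset, F (s ∪ t) := by
  rw [← sum_product']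
  refine sum_nbij' (fun S => (S ∩ A, S ∩ B)) (fun p => p.1 ∪ p.2) ?_ ?_ ?_ ?_ ?_
  · intro S _
    simp only [mem_product, mem_powerset]
    exact ⟨inter_subset_right, inter_subset_right⟩
  · rintro ⟨s, t⟩ hp
    simp only [mem_product, mem_powerset] at hp ⊢
    exact union_subset_union hp.1 hp.2
  · intro S hS
    simp only [mem_powerset] at hS
    simp only
    rw [← inter_union_distrib_left, inter_eq_left.2 hS]
  · rintro ⟨s, t⟩ hp
    simp only [mem_product, mem_powerset] at hp
    have h1 : Disjoint t A := (h.symm.mono_left hp.2)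
    have h2 : Disjoint s B := (h.mono_left hp.1)
    simp only [union_inter_distrib_right, inter_eq_left.2 hp.1, inter_eq_left.2 hp.2,
      disjoint_iff_inter_eq_empty.1 h1, disjoint_iff_inter_eq_empty.1 h2, union_empty, empty_union]
  · intro S hS
    simp only [mem_powerset] at hS
    simp only
    rw [← inter_union_distrib_left, inter_eq_left.2 hS]

omit [Fintype ι] in
lemma ev_restrict {A B : Finset ι} (h : Disjoint A B) (a : Finset ι → ℝ) (x y : ι → Bool) :
    ev A (fun s => ev B (fun t => a (s ∪ t)) y) x =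
      ev (A ∪ B) a (fun i => if i ∈ A then x i else y i) := by
  unfold ev mev
  rw [sum_split h]
  refine sum_congr rfl fun s hs => ?_
  rw [sum_mul]
  refine sum_congr rfl fun t ht => ?_
  have hs' := mem_powerset.1 hs
  have ht' := mem_powerset.1 ht
  rw [prod_union (h.mono hs' ht')]
  have e1 : ∏ i ∈ s, sg (if i ∈ A then x i else y i) = ∏ i ∈ s, sg (x i) :=
    prod_congr rfl fun i hi => by rw [if_pos (hs' hi)]
  have e2 : ∏ i ∈ t, sg (if i ∈ A then x i else y i) = ∏ i ∈ t, sg (y i) :=
    prod_congr rfl fun i hi => by rw [if_neg (fun hA => disjoint_left.1 h hA (ht' hi))]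
  rw [e1, e2]
  ring

/-- Second moment of a sum of signs. -/
lemma expect_sum_sg_sq (S : Finset ι) : 𝔼 x : ι → Bool, (∑ i ∈ S, sg (x i)) ^ 2 = S.card := by
  induction S using Finset.induction_on with
  | empty => simp
  | insert i S hi ih =>
    rw [card_insert_of_notMem hi, Nat.cast_succ, ← ih, ← Fintype.expect_const (ι := ι → Bool) (1 : ℝ),
      ← expect_add_distrib]
    refine expect_eq_of_flip i _ _ (fun x => 2 * ∑ j ∈ S, sg (x j)) (fun x c => by
      congr 1
      exact sum_congr rfl fun j hj => by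
        rw [Function.update_of_ne (ne_of_mem_of_not_mem hj hi)]) fun x => ?_
    rw [sum_insert hi]
    linear_combination sg_sq (x i)

end Pool.Agent.Lib.MP_de5887_an
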