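import Pool.Agent.Lib.MP_de5887_an.Main

set_option autoImplicit false

open Finset
open scoped BigOperators

namespace Pool.Agent.Lib.MP_de5887_an

variable {ι : Type*} [Fintype ι] [DecidableEq ι]

omit [DecidableEq ι] in
lemma sum_level (d : ℕ) (F : Finset ι → ℝ) :
    ∑ S ∈ (univ : Finset ι).powersetCard d, F S =
      ∑ T ∈ (univ : Finset ι).powerset, if T.card = d then F T else 0 := by
  rw [powersetCard_eq_filter, sum_filter]

omit [DecidableEq ι] in
lemma ev_level (d : ℕ) (a : Finset ι → ℝ) (x : ι → Bool) :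
    ev univ (fun T => if T.card = d then a T else 0) x =
      ∑ S ∈ (univ : Finset ι).powersetCard d, a S * ∏ i ∈ S, sg (x i) := by
  rw [sum_level]
  unfold ev mev
  refine sum_congr rfl fun T _ => ?_
  by_cases h : T.card = d <;> simp [h]

theorem bh_hom (d : ℕ) (hd : 1 ≤ d) (a : Finset ι → ℝ) : ∃ x : ι → Bool,
    (∑ S ∈ (univ : Finset ι).powersetCard d,
      |a S| ^ ((2 * (d : ℝ)) / ((d : ℝ) + 1))) ^ (((d : ℝ) + 1) / (2 * (d : ℝ))) ≤
      (d : ℝ) ^ CC * |∑ S ∈ (univ : Finset ι).powersetCard d, a S * ∏ i ∈ S, sg (x i)| := by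
  rcases hd.eq_or_lt with h1 | hd2
  · subst h1
    refine ⟨fun i => decide (0 ≤ a {i}), ?_⟩
    rw [← ev_level, ev_level_one, ← sum_level]
    have e1 : (2 * ((1 : ℕ) : ℝ)) / (((1 : ℕ) : ℝ) + 1) = 1 := by norm_num
    have e2 : (((1 : ℕ) : ℝ) + 1) / (2 * ((1 : ℕ) : ℝ)) = 1 := by norm_num
    rw [e1, e2]
    simp only [Real.rpow_one, Nat.cast_one, Real.one_rpow, one_mul]
    exact le_abs_self _
  have hd' : (2 : ℝ) ≤ d := by exact_mod_cast hd2
  set a' : Finset ι → ℝ := fun T => if T.card = d then a T else 0 with ha'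
  obtain ⟨x0, hx0⟩ := Finite.exists_max fun x : ι → Bool => |ev univ a' x|
  refine ⟨x0, ?_⟩
  rw [← ev_level]
  set M := |ev univ a' x0| with hM
  have hq : (2 * (d : ℝ)) / ((d : ℝ) + 1) = qq d := rfl
  have hqpos : 0 < qq d := qq_pos hd
  rw [hq]
  rcases (abs_nonneg (ev univ a' x0)).eq_or_lt with h0 | hpos
  · have hz : ∀ x, ev univ a' x = 0 := fun x =>
      abs_eq_zero.1 (le_antisymm ((hx0 x).trans h0.symm.le) (abs_nonneg _))
    have hp := expect_ev_sq univ a'
    simp only [hz, ne_eq, OfNat.ofNat_ne_zero, not_false_eq_true, zero_pow,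
      expect_const_zero] at hp
    have h2 := (sum_eq_zero_iff_of_nonneg (fun T _ => sq_nonneg (a' T))).1 hp.symm
    have h3 : ∑ S ∈ (univ : Finset ι).powersetCard d, |a S| ^ qq d = 0 := by
      refine sum_eq_zero fun S hS => ?_
      have h4 := h2 S (mem_powerset.2 (subset_univ S))
      simp only [ha', if_pos (mem_powersetCard.1 hS).2] at h4
      rw [pow_eq_zero_iff two_ne_zero] at h4
      rw [h4, abs_zero, Real.zero_rpow hqpos.ne']
    rw [h3, Real.zero_rpow (by positivity)]
    positivity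
  · have hMpos : 0 < M := hpos
    set c : Finset ι → ℝ := fun T => M⁻¹ * a' T with hc
    have hcl : Cls d univ c := by
      refine ⟨fun T _ hT => ?_, fun x => ?_⟩
      · simp only [hc, ha']; rw [if_neg (by omega), mul_zero]
      · have h2 : ev univ c x = M⁻¹ * ev univ a' x := by
          unfold ev mev
          rw [mul_sum]
          exact sum_congr rfl fun T _ => by simp only [hc]; ring
        rw [h2, abs_mul, abs_of_pos (inv_pos.2 hMpos), inv_mul_le_iff₀ hMpos, mul_one]
        exact hx0 x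
    have h3 := Qs_le hd2 univ c hcl
    have h4 : ∑ S ∈ (univ : Finset ι).powersetCard d, |a S| ^ qq d ≤ M ^ qq d * Qs univ c d := by
      rw [sum_level]
      unfold Qs
      rw [mul_sum]
      refine sum_le_sum fun T _ => ?_
      by_cases h1 : T.card = d
      · rw [if_pos h1, if_pos (by omega), h1, ← Real.mul_rpow hMpos.le (abs_nonneg _)]
        refine le_of_eq ?_
        congr 1
        simp only [hc, ha', if_pos h1, abs_mul, abs_of_pos (inv_pos.2 hMpos)]
        field_simp
      · rw [if_neg h1]; split_ifs <;> positivity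
    have h5 : ∑ S ∈ (univ : Finset ι).powersetCard d, |a S| ^ qq d ≤ M ^ qq d * (d : ℝ) ^ CC :=
      h4.trans (mul_le_mul_of_nonneg_left h3 (by positivity))
    have h6 := Real.rpow_le_rpow (sum_nonneg fun S _ => by positivity) h5
      (show 0 ≤ ((d : ℝ) + 1) / (2 * (d : ℝ)) by positivity)
    refine h6.trans ?_
    rw [Real.mul_rpow (by positivity) (by positivity), ← Real.rpow_mul hMpos.le]
    have e : qq d * (((d : ℝ) + 1) / (2 * (d : ℝ))) = 1 := by unfold qq; field_simp
    rw [e, Real.rpow_one, mul_comm]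
    refine mul_le_mul_of_nonneg_right ?_ hMpos.le
    have h7 : 1 ≤ (d : ℝ) ^ CC := Real.one_le_rpow (by linarith) CC_pos.le
    calc ((d : ℝ) ^ CC) ^ (((d : ℝ) + 1) / (2 * (d : ℝ))) ≤ ((d : ℝ) ^ CC) ^ (1 : ℝ) := by
          refine Real.rpow_le_rpow_of_exponent_le h7 ?_
          rw [div_le_one (by positivity)]; linarith
      _ = _ := Real.rpow_one _

end Pool.Agent.Lib.MP_de5887_an
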