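import Pool.Agent.Lib.MP_de5887_an.Markov

set_option autoImplicit false

open Finset
open scoped BigOperators

namespace Pool.Agent.Lib.MP_de5887_an

lemma holder3 {α : Type*} [Fintype α] (f g h : α → ℝ) (hf : ∀ x, 0 ≤ f x)
    (hg : ∀ x, 0 ≤ g x) (hh : ∀ x, 0 ≤ h x) {u v w X Y Z : ℝ} (hu : 0 ≤ u) (hv : 0 ≤ v)
    (hw : 0 ≤ w) (hs : u + v + w = 1) (hX : 0 < X) (hY : 0 < Y) (hZ : 0 < Z)
    (h1 : 𝔼 x, f x ≤ X) (h2 : 𝔼 x, g x ≤ Y) (h3 : 𝔼 x, h x ≤ Z) :
    𝔼 x, f x ^ u * g x ^ v * h x ^ w ≤ X ^ u * Y ^ v * Z ^ w := by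
  have hP : 0 < X ^ u * Y ^ v * Z ^ w := by positivity
  have key : ∀ x, f x ^ u * g x ^ v * h x ^ w ≤
      X ^ u * Y ^ v * Z ^ w * (u / X * f x + v / Y * g x + w / Z * h x) := by
    intro x
    have := Real.geom_mean_le_arith_mean3_weighted hu hv hw (div_nonneg (hf x) hX.le)
      (div_nonneg (hg x) hY.le) (div_nonneg (hh x) hZ.le) hs
    rw [Real.div_rpow (hf x) hX.le, Real.div_rpow (hg x) hY.le, Real.div_rpow (hh x) hZ.le] at this
    have e : f x ^ u * g x ^ v * h x ^ w = X ^ u * Y ^ v * Z ^ w *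
        (f x ^ u / X ^ u * (g x ^ v / Y ^ v) * (h x ^ w / Z ^ w)) := by
      field_simp
    rw [e]
    refine mul_le_mul_of_nonneg_left (this.trans (le_of_eq ?_)) hP.le
    ring
  refine (expect_le_expect fun x _ => key x).trans ?_
  rw [← mul_expect, expect_add_distrib, expect_add_distrib, ← mul_expect, ← mul_expect,
    ← mul_expect]
  refine mul_le_of_le_one_right hP.le ?_
  have e1 : u / X * 𝔼 x, f x ≤ u := by
    calc _ ≤ u / X * X := mul_le_mul_of_nonneg_left h1 (by positivity)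
      _ = u := by field_simp
  have e2 : v / Y * 𝔼 x, g x ≤ v := by
    calc _ ≤ v / Y * Y := mul_le_mul_of_nonneg_left h2 (by positivity)
      _ = v := by field_simp
  have e3 : w / Z * 𝔼 x, h x ≤ w := by
    calc _ ≤ w / Z * Z := mul_le_mul_of_nonneg_left h3 (by positivity)
      _ = w := by field_simp
  linarith

variable {ι : Type*} [Fintype ι] [DecidableEq ι]

/-- The Bohnenblust-Hille exponent of level `j`. -/
noncomputable def qq (j : ℕ) : ℝ := 2 * (j : ℝ) / ((j : ℝ) + 1)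

lemma qq_le_two (j : ℕ) : qq j ≤ 2 := by
  unfold qq
  rw [div_le_iff₀ (by positivity)]
  linarith

lemma qq_pos {j : ℕ} (hj : 1 ≤ j) : 0 < qq j := by
  unfold qq
  have : (0 : ℝ) < j := by exact_mod_cast hj
  positivity

lemma one_le_qq {j : ℕ} (hj : 1 ≤ j) : 1 ≤ qq j := by
  unfold qq
  have : (1 : ℝ) ≤ j := by exact_mod_cast hj
  rw [le_div_iff₀ (by positivity)]
  linarith

/-- Low degree part of an arbitrary function: hypercontractivity through duality. -/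
lemma hc_two (V : Finset ι) (b : Finset ι → ℝ) {s : ℕ} (hs : 2 ≤ s) :
    (∑ T ∈ V.powerset, if T.card ≤ 3 * s then b T ^ 2 else 0) ^ ((s : ℝ) / ((s : ℝ) + 1)) ≤
      729 * 𝔼 y, |ev V b y| ^ qq s := by
  have hs' : (2 : ℝ) ≤ s := by exact_mod_cast hs
  have hs0 : (0 : ℝ) < s := by linarith
  set c : Finset ι → ℝ := fun T => if T.card ≤ 3 * s then b T else 0 with hc
  set R := ∑ T ∈ V.powerset, if T.card ≤ 3 * s then b T ^ 2 else 0 with hR
  set X := 𝔼 y, |ev V b y| ^ qq s with hX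
  have hX0 : 0 ≤ X := expect_nonneg fun y _ => by positivity
  have hR0 : 0 ≤ R := sum_nonneg fun T _ => by split_ifs <;> positivity
  have hRc : ∑ T ∈ V.powerset, c T ^ 2 = R :=
    sum_congr rfl fun T _ => by simp only [hc]; split_ifs <;> simp
  have hRbc : 𝔼 y, ev V b y * ev V c y = R := by
    rw [expect_ev_mul]
    exact sum_congr rfl fun T _ => by simp only [hc]; split_ifs <;> simp [sq]
  rcases hR0.eq_or_lt with h0 | hRpos
  · rw [← h0, Real.zero_rpow (by positivity)]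
    positivity
  have hqpos : 0 < qq s := qq_pos (by omega)
  have hXpos : 0 < X := by
    rcases hX0.eq_or_lt with h0 | h0
    · exfalso
      have h1 := (expect_eq_zero_iff_of_nonneg (fun y _ => by positivity)).1 h0.symm
      have h2 : ∀ y, ev V b y = 0 := fun y => by
        have := h1 y (mem_univ y)
        rwa [Real.rpow_eq_zero (abs_nonneg _) hqpos.ne', abs_eq_zero] at this
      rw [← hRbc] at hRpos
      simp [h2] at hRpos
    · exact h0
  have h4 : 𝔼 y, ev V c y ^ 4 ≤ 9 ^ (3 * s) * R ^ 2 := by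
    rw [← hRc]
    exact bonami_deg V c (3 * s) fun T _ hT => by simp only [hc]; rw [if_neg (by omega)]
  have h2 : 𝔼 y, ev V c y ^ 2 ≤ R := by rw [expect_ev_sq, hRc]
  have hH := holder3 (fun y => |ev V b y| ^ qq s) (fun y => ev V c y ^ 2) (fun y => ev V c y ^ 4)
    (fun y => by positivity) (fun y => by positivity) (fun y => by positivity)
    (u := ((s : ℝ) + 1) / (2 * s)) (v := ((s : ℝ) - 2) / (2 * s)) (w := 1 / (2 * s))
    (by positivity) (div_nonneg (by linarith) (by positivity)) (by positivity)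
    (by field_simp; ring) hXpos hRpos (by positivity) le_rfl h2 h4
  have hpt : ∀ y, ev V b y * ev V c y ≤ (|ev V b y| ^ qq s) ^ (((s : ℝ) + 1) / (2 * s)) *
      (ev V c y ^ 2) ^ (((s : ℝ) - 2) / (2 * s)) * (ev V c y ^ 4) ^ (1 / (2 * (s : ℝ))) := by
    intro y
    have e1 : (|ev V b y| ^ qq s) ^ (((s : ℝ) + 1) / (2 * s)) = |ev V b y| := by
      rw [← Real.rpow_mul (abs_nonneg _)]
      have : qq s * (((s : ℝ) + 1) / (2 * s)) = 1 := by unfold qq; field_simp
      rw [this, Real.rpow_one]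
    have e2 : (ev V c y ^ 2) ^ (((s : ℝ) - 2) / (2 * s)) * (ev V c y ^ 4) ^ (1 / (2 * (s : ℝ))) =
        |ev V c y| := by
      have a2 : ev V c y ^ 2 = |ev V c y| ^ (2 : ℝ) := by
        rw [Real.rpow_two, sq_abs]
      have a4 : ev V c y ^ 4 = |ev V c y| ^ (4 : ℝ) := by
        rw [show (4 : ℝ) = ((4 : ℕ) : ℝ) by norm_num, Real.rpow_natCast]
        exact (Even.pow_abs (by decide) _).symm
      rw [a2, a4, ← Real.rpow_mul (abs_nonneg _), ← Real.rpow_mul (abs_nonneg _)]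
      have : 2 * (((s : ℝ) - 2) / (2 * s)) + 4 * (1 / (2 * (s : ℝ))) = 1 := by field_simp; ring
      rw [← Real.rpow_add' (abs_nonneg _) (by rw [this]; exact one_ne_zero), this, Real.rpow_one]
    rw [mul_assoc, e1, e2, ← abs_mul]
    exact le_abs_self _
  have hle : R ≤ X ^ (((s : ℝ) + 1) / (2 * s)) * R ^ (((s : ℝ) - 2) / (2 * s)) *
      (9 ^ (3 * s) * R ^ 2) ^ (1 / (2 * (s : ℝ))) := by
    calc R = _ := hRbc.symm
      _ ≤ _ := expect_le_expect fun y _ => hpt y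
      _ ≤ _ := hH
  have e3 : R ^ (((s : ℝ) - 2) / (2 * s)) * (9 ^ (3 * s) * R ^ 2) ^ (1 / (2 * (s : ℝ))) =
      27 * R ^ (1 / 2 : ℝ) := by
    rw [Real.mul_rpow (by positivity) (by positivity), ← Real.rpow_natCast R 2,
      ← Real.rpow_mul hR0, ← Real.rpow_natCast 9 (3 * s), ← Real.rpow_mul (by norm_num)]
    have f1 : ((3 * s : ℕ) : ℝ) * (1 / (2 * (s : ℝ))) = 3 / 2 := by push_cast; field_simp
    have f2 : (9 : ℝ) ^ (3 / 2 : ℝ) = 27 := by
      rw [show (9 : ℝ) = 3 ^ (2 : ℝ) by norm_num, ← Real.rpow_mul (by norm_num)]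
      norm_num
    rw [f1, f2, mul_left_comm, ← Real.rpow_add hRpos]
    congr 2
    push_cast; field_simp; ring
  rw [mul_assoc, e3] at hle
  have hhalf : R ^ (1 / 2 : ℝ) ≤ 27 * X ^ (((s : ℝ) + 1) / (2 * s)) := by
    have hp : 0 < R ^ (1 / 2 : ℝ) := by positivity
    have e4 : R = R ^ (1 / 2 : ℝ) * R ^ (1 / 2 : ℝ) := by
      rw [← Real.rpow_add hRpos]; norm_num
    refine le_of_mul_le_mul_right ?_ hp
    rw [← e4]
    linarith
  have h5 := Real.rpow_le_rpow (by positivity) hhalf hqpos.le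
  rw [← Real.rpow_mul hR0, Real.mul_rpow (by norm_num) (by positivity),
    ← Real.rpow_mul hX0] at h5
  have f3 : 1 / 2 * qq s = (s : ℝ) / ((s : ℝ) + 1) := by unfold qq; field_simp
  have f4 : ((s : ℝ) + 1) / (2 * s) * qq s = 1 := by unfold qq; field_simp
  rw [f3, f4, Real.rpow_one] at h5
  refine h5.trans (mul_le_mul_of_nonneg_right ?_ hX0)
  calc (27 : ℝ) ^ qq s ≤ 27 ^ (2 : ℝ) :=
        Real.rpow_le_rpow_of_exponent_le (by norm_num) (qq_le_two s)
    _ = 729 := by norm_num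

/-- The case of exponent one, for polynomials of degree at most four. -/
lemma hc_one (V : Finset ι) (b : Finset ι → ℝ) (hb : ∀ T ∈ V.powerset, 4 < T.card → b T = 0) :
    (∑ T ∈ V.powerset, if T.card ≤ 3 * 1 then b T ^ 2 else 0) ^ (((1 : ℕ) : ℝ) / (((1 : ℕ) : ℝ) + 1)) ≤
      729 * 𝔼 y, |ev V b y| ^ qq 1 := by
  have hq : qq 1 = 1 := by unfold qq; norm_num
  simp only [hq, Real.rpow_one]
  set R := ∑ T ∈ V.powerset, b T ^ 2 with hR
  set X := 𝔼 y, |ev V b y| with hX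
  have hX0 : 0 ≤ X := expect_nonneg fun y _ => by positivity
  have hR0 : 0 ≤ R := sum_nonneg fun T _ => by positivity
  have hle : (∑ T ∈ V.powerset, if T.card ≤ 3 * 1 then b T ^ 2 else 0) ≤ R :=
    sum_le_sum fun T _ => by split_ifs <;> [exact le_rfl; positivity]
  have h2 : 𝔼 y, ev V b y ^ 2 = R := expect_ev_sq V b
  have h4 : 𝔼 y, ev V b y ^ 4 ≤ 9 ^ 4 * R ^ 2 := bonami_deg V b 4 hb
  have c1 : R ^ 2 ≤ X * 𝔼 y, |ev V b y| ^ 3 := by
    have := expect_mul_sq_le_sq_mul_sq univ (fun y => √|ev V b y|)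
      (fun y => √|ev V b y| * |ev V b y|)
    have e1 : 𝔼 y, √|ev V b y| * (√|ev V b y| * |ev V b y|) = R := by
      rw [← h2]
      refine expect_congr rfl fun y _ => ?_
      rw [← mul_assoc, Real.mul_self_sqrt (abs_nonneg _), ← sq, sq_abs]
    have e2 : 𝔼 y, √|ev V b y| ^ 2 = X :=
      expect_congr rfl fun y _ => Real.sq_sqrt (abs_nonneg _)
    have e3 : 𝔼 y, (√|ev V b y| * |ev V b y|) ^ 2 = 𝔼 y, |ev V b y| ^ 3 :=
      expect_congr rfl fun y _ => by rw [mul_pow, Real.sq_sqrt (abs_nonneg _)]; ring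
    rwa [e1, e2, e3] at this
  have c2 : (𝔼 y, |ev V b y| ^ 3) ^ 2 ≤ R * (9 ^ 4 * R ^ 2) := by
    have := expect_mul_sq_le_sq_mul_sq univ (fun y => |ev V b y|) (fun y => |ev V b y| ^ 2)
    have e1 : 𝔼 y, |ev V b y| * |ev V b y| ^ 2 = 𝔼 y, |ev V b y| ^ 3 :=
      expect_congr rfl fun y _ => by ring
    have e2 : 𝔼 y, |ev V b y| ^ 2 = R := by
      rw [← h2]; exact expect_congr rfl fun y _ => sq_abs _
    have e3 : 𝔼 y, (|ev V b y| ^ 2) ^ 2 = 𝔼 y, ev V b y ^ 4 :=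
      expect_congr rfl fun y _ => by rw [sq_abs]; ring
    rw [e1, e2, e3] at this
    exact this.trans (mul_le_mul_of_nonneg_left h4 hR0)
  have c3 : R ≤ (81 * X) ^ 2 := by
    rcases hR0.eq_or_lt with h0 | hRpos
    · rw [← h0]; positivity
    · have h5 : (R ^ 2) ^ 2 ≤ X ^ 2 * (R * (9 ^ 4 * R ^ 2)) := by
        refine (pow_le_pow_left₀ (by positivity) c1 2).trans ?_
        rw [mul_pow]
        exact mul_le_mul_of_nonneg_left c2 (by positivity)
      have hp : 0 < R ^ 3 := by positivity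
      refine le_of_mul_le_mul_right ?_ hp
      nlinarith
  have c4 : R ^ (((1 : ℕ) : ℝ) / (((1 : ℕ) : ℝ) + 1)) ≤ 81 * X := by
    have := Real.rpow_le_rpow hR0 c3 (show (0 : ℝ) ≤ ((1 : ℕ) : ℝ) / (((1 : ℕ) : ℝ) + 1) by positivity)
    rw [← Real.rpow_natCast (81 * X) 2, ← Real.rpow_mul (by positivity)] at this
    have e : ((2 : ℕ) : ℝ) * (((1 : ℕ) : ℝ) / (((1 : ℕ) : ℝ) + 1)) = 1 := by norm_num
    rwa [e, Real.rpow_one] at this
  calc _ ≤ R ^ (((1 : ℕ) : ℝ) / (((1 : ℕ) : ℝ) + 1)) :=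
        Real.rpow_le_rpow (sum_nonneg fun T _ => by split_ifs <;> positivity) hle (by positivity)
    _ ≤ 81 * X := c4
    _ ≤ 729 * X := by linarith

end Pool.Agent.Lib.MP_de5887_an
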