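import Pool.Agent.Lib.MP_de5887_an.Step

set_option autoImplicit false

open Finset
open scoped BigOperators

namespace Pool.Agent.Lib.MP_de5887_an

/-- The exponent of polynomial loss per scale. -/
noncomputable def gam : ℝ := Real.log (2 + 27 * 729 ^ 2) / Real.log (4 / 3)

lemma log43_pos : 0 < Real.log (4 / 3) := Real.log_pos (by norm_num)

lemma gam_pos : 0 < gam := div_pos (Real.log_pos (by norm_num)) log43_pos

/-- Logarithm of the bound at level `k`. -/
noncomputable def bb (L : ℝ) (k : ℕ) : ℝ := Real.exp (4 - 4 / (k : ℝ)) * (L + gam * Real.log k)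

lemma one_le_e {k : ℕ} (hk : 1 ≤ k) : 1 ≤ Real.exp (4 - 4 / (k : ℝ)) := by
  refine Real.one_le_exp ?_
  have : (1 : ℝ) ≤ k := by exact_mod_cast hk
  rw [sub_nonneg, div_le_iff₀ (by linarith)]
  linarith

lemma le_bb {L : ℝ} (hL : 0 ≤ L) {k : ℕ} (hk : 1 ≤ k) : L ≤ bb L k := by
  have h1 : 0 ≤ gam * Real.log k := mul_nonneg gam_pos.le (Real.log_natCast_nonneg k)
  have h2 := one_le_e hk
  unfold bb
  nlinarith

lemma bb_rec {L : ℝ} (hL : 0 ≤ L) {k : ℕ} (hk : 2 ≤ k) :
    2 * Real.exp (bb L (3 * k / 4)) +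
      27 * (729 * Real.exp (bb L (3 * k / 4))) ^ (1 + 1 / (((3 * k / 4 : ℕ) : ℝ) + 2)) ≤
      Real.exp (bb L k) := by
  set k' := 3 * k / 4 with hk'
  have hk1 : 1 ≤ k' := by omega
  have hk1' : (1 : ℝ) ≤ k' := by exact_mod_cast hk1
  have hkk : 4 * (k' : ℝ) ≤ 3 * k := by
    have : 4 * k' ≤ 3 * k := by omega
    exact_mod_cast this
  have hk0 : (0 : ℝ) < k := by linarith
  set w : ℝ := 1 / ((k' : ℝ) + 2) with hw
  have hw0 : 0 ≤ w := by positivity
  have hw1 : w ≤ 1 := by rw [hw, div_le_one (by linarith)]; linarith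
  set b' := bb L k' with hb'
  have hb0 : 0 ≤ b' := hL.trans (le_bb hL hk1)
  have h1 : (729 * Real.exp b') ^ (1 + w) ≤ 729 ^ 2 * Real.exp ((1 + w) * b') := by
    rw [Real.mul_rpow (by norm_num) (Real.exp_pos _).le, ← Real.exp_mul, mul_comm b']
    refine mul_le_mul_of_nonneg_right ?_ (Real.exp_pos _).le
    calc (729 : ℝ) ^ (1 + w) ≤ 729 ^ (2 : ℝ) :=
          Real.rpow_le_rpow_of_exponent_le (by norm_num) (by linarith)
      _ = 729 ^ 2 := by norm_num
  have h2 : Real.exp b' ≤ Real.exp ((1 + w) * b') := Real.exp_le_exp.2 (by nlinarith)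
  have h3 : (1 + w) * Real.exp (4 - 4 / (k' : ℝ)) ≤ Real.exp (4 - 4 / (k : ℝ)) := by
    calc _ ≤ Real.exp w * Real.exp (4 - 4 / (k' : ℝ)) :=
          mul_le_mul_of_nonneg_right (by linarith [Real.add_one_le_exp w]) (Real.exp_pos _).le
      _ = Real.exp (w + (4 - 4 / (k' : ℝ))) := (Real.exp_add _ _).symm
      _ ≤ _ := by
        refine Real.exp_le_exp.2 ?_
        have a1 : w ≤ 1 / (k' : ℝ) := one_div_le_one_div_of_le (by linarith) (by linarith)
        have a2 : 4 / (k : ℝ) ≤ 3 / (k' : ℝ) := by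
          rw [div_le_div_iff₀ hk0 (by linarith)]; linarith
        have a3 : 4 / (k' : ℝ) = 1 / (k' : ℝ) + 3 / (k' : ℝ) := by ring
        linarith
  have h4 : Real.log k' + Real.log (4 / 3) ≤ Real.log k := by
    rw [← Real.log_mul (by linarith) (by norm_num)]
    exact Real.log_le_log (by positivity) (by linarith)
  have h5 : gam * Real.log (4 / 3) = Real.log (2 + 27 * 729 ^ 2) := by
    unfold gam; exact div_mul_cancel₀ _ log43_pos.ne'
  have hlog : 0 ≤ L + gam * Real.log k' :=
    add_nonneg hL (mul_nonneg gam_pos.le (Real.log_natCast_nonneg k'))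
  have h6 : (1 + w) * b' + Real.log (2 + 27 * 729 ^ 2) ≤ bb L k := by
    have e1 := one_le_e (k := k) (by omega)
    have c1 : (1 + w) * b' ≤ Real.exp (4 - 4 / (k : ℝ)) * (L + gam * Real.log k') := by
      rw [hb']; unfold bb
      rw [← mul_assoc]
      exact mul_le_mul_of_nonneg_right h3 hlog
    have c2 : 0 ≤ gam * Real.log (4 / 3) := mul_nonneg gam_pos.le log43_pos.le
    have c3 : gam * (Real.log k' + Real.log (4 / 3)) ≤ gam * Real.log k :=
      mul_le_mul_of_nonneg_left h4 gam_pos.le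
    have c4 : Real.exp (4 - 4 / (k : ℝ)) * (L + gam * (Real.log k' + Real.log (4 / 3))) ≤ bb L k := by
      unfold bb
      exact mul_le_mul_of_nonneg_left (by linarith) (Real.exp_pos _).le
    rw [← h5]
    nlinarith
  calc _ ≤ (2 + 27 * 729 ^ 2) * Real.exp ((1 + w) * b') := by linarith
    _ = Real.exp ((1 + w) * b' + Real.log (2 + 27 * 729 ^ 2)) := by
        rw [Real.exp_add, Real.exp_log (by norm_num), mul_comm]
    _ ≤ _ := Real.exp_le_exp.2 h6

variable {ι : Type*} [Fintype ι] [DecidableEq ι]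

omit [Fintype ι] [DecidableEq ι] in
lemma Qs_mono (V : Finset ι) (a : Finset ι → ℝ) {k l : ℕ} (h : k ≤ l) : Qs V a k ≤ Qs V a l := by
  refine sum_le_sum fun T _ => ?_
  by_cases h1 : 1 ≤ T.card ∧ T.card ≤ k
  · rw [if_pos h1, if_pos ⟨h1.1, h1.2.trans h⟩]
  · rw [if_neg h1]; split_ifs <;> positivity

/-- The bootstrap over scales. -/
lemma recursion {d k0 : ℕ} {L : ℝ} (hk0 : 1 ≤ k0) (hL : 0 ≤ L) (hHC : HC ι d k0)
    (hbase : ∀ (V : Finset ι) (a : Finset ι → ℝ), Cls d V a → Qs V a k0 ≤ Real.exp L) (k : ℕ) :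
    1 ≤ k → ∀ (V : Finset ι) (a : Finset ι → ℝ), Cls d V a → Qs V a k ≤ Real.exp (bb L k) := by
  induction k using Nat.strong_induction_on with
  | _ k ih =>
    intro hk V a ha
    rcases le_or_gt k k0 with h | h
    · exact (Qs_mono V a h).trans ((hbase V a ha).trans (Real.exp_le_exp.2 (le_bb hL hk)))
    · have hk2 : 2 ≤ k := by omega
      have hk1 : 1 ≤ 3 * k / 4 := by omega
      have ih' := ih (3 * k / 4) (by omega) hk1
      have hN1 : 1 ≤ Real.exp (bb L (3 * k / 4)) := Real.one_le_exp (hL.trans (le_bb hL hk1))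
      have h1 := step_all hN1 hk2 hHC ih' ha
      have h2 := ih' V a ha
      have h3 := (hbase V a ha).trans (Real.exp_le_exp.2 (le_bb hL hk1))
      have h4 : Qs V a k ≤ Qs V a k0 + Qs V a (3 * k / 4) +
          ∑ S ∈ V.powerset, if 3 * k / 4 < S.card ∧ S.card ≤ k ∧ k0 < S.card then
            |a S| ^ qq S.card else 0 := by
        unfold Qs
        rw [← sum_add_distrib, ← sum_add_distrib]
        refine sum_le_sum fun T _ => ?_
        have hp : 0 ≤ |a T| ^ qq T.card := by positivity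
        split_ifs <;> first | linarith | (exfalso; omega)
      have h5 := bb_rec hL hk2
      linarith

lemma HC_four : HC ι 4 1 := by
  intro V b s hs _ hb
  rcases hs.eq_or_lt with h | h
  · subst h; exact hc_one V b hb
  · exact hc_two V b h

lemma HC_gen (d : ℕ) : HC ι d 4 := fun V b s _ h _ => hc_two V b (by omega)

omit [Fintype ι] in
lemma base_four (V : Finset ι) (a : Finset ι → ℝ) (ha : Cls 4 V a) :
    Qs V a 1 ≤ Real.exp (Real.log 32) := by
  rw [Real.exp_log (by norm_num)]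
  have h := abs_ev_level_le (by norm_num) ha 1 (fun i => decide (0 ≤ a {i}))
  rw [ev_level_one] at h
  have h2 : Qs V a 1 = ∑ T ∈ V.powerset, if T.card = 1 then |a T| else 0 := by
    refine sum_congr rfl fun T _ => ?_
    by_cases h1 : T.card = 1
    · rw [if_pos (by omega), if_pos h1, h1]
      have : qq 1 = 1 := by unfold qq; norm_num
      rw [this, Real.rpow_one]
    · rw [if_neg (by omega), if_neg h1]
  rw [h2]
  refine (le_abs_self _).trans (h.trans (le_of_eq ?_))
  norm_num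

/-- The constant for degree four. -/
noncomputable def B4 : ℝ := Real.exp (bb (Real.log 32) 4)

lemma one_le_B4 : 1 ≤ B4 := by
  have h : 0 ≤ Real.log 32 := Real.log_nonneg (by norm_num)
  exact Real.one_le_exp (h.trans (le_bb h (by norm_num)))

lemma Qs_four (V : Finset ι) (a : Finset ι → ℝ) (ha : Cls 4 V a) : Qs V a 4 ≤ B4 :=
  recursion le_rfl (Real.log_nonneg (by norm_num)) HC_four base_four 4 (by norm_num) V a ha

lemma level_le {d : ℕ} (hd : 1 ≤ d) {V : Finset ι} {a : Finset ι → ℝ} (ha : Cls d V a)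
    {k : ℕ} (hk1 : 1 ≤ k) (hk4 : k ≤ 4) :
    (∑ T ∈ V.powerset, if T.card = k then |a T| ^ qq T.card else 0) ≤
      (2 * (d : ℝ) ^ 2) ^ 8 * B4 := by
  have hd' : (1 : ℝ) ≤ d := by exact_mod_cast hd
  set m : ℝ := 2 * (d : ℝ) ^ 2 with hm
  have hm1 : 1 ≤ m := by rw [hm]; nlinarith
  have hmk : 0 < m ^ k := by positivity
  have hmk1 : 1 ≤ m ^ k := one_le_pow₀ hm1
  set c : Finset ι → ℝ := fun T => (m ^ k)⁻¹ * if T.card = k then a T else 0 with hc
  have hcl : Cls 4 V c := by
    refine ⟨fun T _ hT => ?_, fun x => ?_⟩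
    · simp only [hc]; rw [if_neg (by omega), mul_zero]
    · have h1 := abs_ev_level_le hd ha k x
      have h2 : ev V c x = (m ^ k)⁻¹ * ev V (fun T => if T.card = k then a T else 0) x := by
        unfold ev mev
        rw [mul_sum]
        exact sum_congr rfl fun T _ => by simp only [hc]; ring
      rw [h2, abs_mul, abs_of_pos (inv_pos.2 hmk), inv_mul_le_iff₀ hmk, mul_one]
      exact h1
  have h3 := Qs_four V c hcl
  have h4 : (∑ T ∈ V.powerset, if T.card = k then |a T| ^ qq T.card else 0) ≤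
      m ^ 8 * Qs V c 4 := by
    unfold Qs
    rw [mul_sum]
    refine sum_le_sum fun T _ => ?_
    by_cases h1 : T.card = k
    · rw [if_pos h1, if_pos (by omega)]
      have e : |a T| = m ^ k * |c T| := by
        simp only [hc, if_pos h1, abs_mul, abs_of_pos (inv_pos.2 hmk)]
        field_simp
      rw [e, Real.mul_rpow hmk.le (abs_nonneg _)]
      refine mul_le_mul_of_nonneg_right ?_ (by positivity)
      calc (m ^ k) ^ qq T.card ≤ (m ^ k) ^ (2 : ℝ) :=
            Real.rpow_le_rpow_of_exponent_le hmk1 (qq_le_two _)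
        _ = m ^ (k * 2) := by rw [Real.rpow_two, pow_mul]
        _ ≤ m ^ 8 := pow_le_pow_right₀ hm1 (by omega)
    · rw [if_neg h1]; split_ifs <;> positivity
  exact h4.trans (mul_le_mul_of_nonneg_left h3 (by positivity))

lemma base_gen {d : ℕ} (hd : 1 ≤ d) (V : Finset ι) (a : Finset ι → ℝ) (ha : Cls d V a) :
    Qs V a 4 ≤ Real.exp (Real.log (4 * ((2 * (d : ℝ) ^ 2) ^ 8 * B4))) := by
  have hd' : (0 : ℝ) < d := by exact_mod_cast hd
  have hB := one_le_B4
  rw [Real.exp_log (by positivity)]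
  have h1 := level_le hd ha (k := 1) (by norm_num) (by norm_num)
  have h2 := level_le hd ha (k := 2) (by norm_num) (by norm_num)
  have h3 := level_le hd ha (k := 3) (by norm_num) (by norm_num)
  have h4 := level_le hd ha (k := 4) (by norm_num) (by norm_num)
  have h5 : Qs V a 4 ≤ (∑ T ∈ V.powerset, if T.card = 1 then |a T| ^ qq T.card else 0) +
      (∑ T ∈ V.powerset, if T.card = 2 then |a T| ^ qq T.card else 0) +
      (∑ T ∈ V.powerset, if T.card = 3 then |a T| ^ qq T.card else 0) +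
      (∑ T ∈ V.powerset, if T.card = 4 then |a T| ^ qq T.card else 0) := by
    unfold Qs
    rw [← sum_add_distrib, ← sum_add_distrib, ← sum_add_distrib]
    refine sum_le_sum fun T _ => ?_
    have hp : 0 ≤ |a T| ^ qq T.card := by positivity
    split_ifs <;> first | linarith | (exfalso; omega)
  linarith

/-- The absolute exponent. -/
noncomputable def CC : ℝ :=
  Real.exp 4 * (Real.log (4 * (2 ^ 8 * B4)) / Real.log 2 + 16 + gam)

lemma CC_pos : 0 < CC := by
  have hB := one_le_B4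
  have h1 : 0 ≤ Real.log (4 * (2 ^ 8 * B4)) := Real.log_nonneg (by nlinarith)
  have h2 : 0 < Real.log 2 := Real.log_pos (by norm_num)
  have := gam_pos
  unfold CC
  positivity

/-- Polynomial bound for the sum over all levels, each with its own exponent. -/
theorem Qs_le {d : ℕ} (hd : 2 ≤ d) (V : Finset ι) (a : Finset ι → ℝ) (ha : Cls d V a) :
    Qs V a d ≤ (d : ℝ) ^ CC := by
  have hd' : (2 : ℝ) ≤ d := by exact_mod_cast hd
  have hB := one_le_B4
  have hm : 1 ≤ (2 * (d : ℝ) ^ 2) ^ 8 := one_le_pow₀ (by nlinarith)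
  have hL : 0 ≤ Real.log (4 * ((2 * (d : ℝ) ^ 2) ^ 8 * B4)) := Real.log_nonneg (by nlinarith)
  have h := recursion (by norm_num) hL (HC_gen d) (base_gen (by omega)) d (by omega) V a ha
  refine h.trans ?_
  rw [Real.rpow_def_of_pos (by linarith)]
  refine Real.exp_le_exp.2 ?_
  have h2 : 0 < Real.log 2 := Real.log_pos (by norm_num)
  have h3 : Real.log 2 ≤ Real.log d := Real.log_le_log (by norm_num) hd'
  have h1 : 0 ≤ Real.log (4 * (2 ^ 8 * B4)) := Real.log_nonneg (by nlinarith)
  have e1 : Real.log (4 * ((2 * (d : ℝ) ^ 2) ^ 8 * B4)) =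
      Real.log (4 * (2 ^ 8 * B4)) + 16 * Real.log d := by
    rw [show 4 * ((2 * (d : ℝ) ^ 2) ^ 8 * B4) = 4 * (2 ^ 8 * B4) * d ^ 16 by ring,
      Real.log_mul (by positivity) (by positivity), Real.log_pow]
    norm_num
  have e2 : Real.log (4 * (2 ^ 8 * B4)) ≤ Real.log (4 * (2 ^ 8 * B4)) / Real.log 2 * Real.log d := by
    calc _ = Real.log (4 * (2 ^ 8 * B4)) / Real.log 2 * Real.log 2 := by field_simp
      _ ≤ _ := mul_le_mul_of_nonneg_left h3 (by positivity)
  have e3 : Real.exp (4 - 4 / (d : ℝ)) ≤ Real.exp 4 :=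
    Real.exp_le_exp.2 (by have : 0 ≤ 4 / (d : ℝ) := by positivity
                          linarith)
  have e4 : 0 ≤ gam * Real.log d := mul_nonneg gam_pos.le (by linarith)
  unfold bb CC
  rw [e1] at hL ⊢
  calc _ ≤ Real.exp 4 * (Real.log (4 * (2 ^ 8 * B4)) + 16 * Real.log d + gam * Real.log d) :=
        mul_le_mul_of_nonneg_right e3 (by linarith)
    _ ≤ Real.exp 4 * (Real.log (4 * (2 ^ 8 * B4)) / Real.log 2 * Real.log d + 16 * Real.log d +
          gam * Real.log d) := mul_le_mul_of_nonneg_left (by linarith) (Real.exp_pos _).le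
    _ = _ := by ring

end Pool.Agent.Lib.MP_de5887_an
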