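import Pool.Agent.Lib.MP_de5887_an.Cube

set_option autoImplicit false

open Finset Polynomial
open scoped BigOperators

namespace Pool.Agent.Lib.MP_de5887_an

lemma markov_aux {P : ℝ[X]} {d : ℕ} (hd : P.natDegree ≤ d) {M : ℝ} (hM0 : 0 < M)
    (hM : ∀ t ∈ Set.Icc (-1 : ℝ) 1, |P.eval t| ≤ M) {ξ σ τ : ℝ} (hτ : |τ| = 1)
    (hσ : ∀ s ∈ Set.Icc (-1 : ℝ) 1, ξ + σ / 2 * (s - 1) ∈ Set.Icc (-1 : ℝ) 1) :
    τ / M * (σ / 2 * P.derivative.eval ξ) ≤ (d : ℝ) ^ 2 := by
  set L : ℝ[X] := C ξ + C (σ / 2) * (X - 1) with hL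
  have hLd : L.natDegree ≤ 1 := by rw [hL]; compute_degree
  set Q : ℝ[X] := C (τ / M) * P.comp L with hQ
  have hQd : Q.degree ≤ d := by
    refine degree_le_of_natDegree_le ?_
    refine (natDegree_C_mul_le _ _).trans (natDegree_comp_le.trans ?_)
    calc P.natDegree * L.natDegree ≤ d * 1 := Nat.mul_le_mul hd hLd
      _ = d := mul_one d
  have hQb : ∀ s ∈ Set.Icc (-1 : ℝ) 1, |Q.eval s| ≤ 1 := by
    intro s hs
    have h1 : Q.eval s = τ / M * P.eval (ξ + σ / 2 * (s - 1)) := by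
      simp [hQ, hL, eval_comp]
    rw [h1, abs_mul, abs_div, hτ, abs_of_pos hM0, one_div, inv_mul_le_iff₀ hM0, mul_one]
    exact hM _ (hσ s hs)
  have h := Polynomial.Chebyshev.eval_iterate_derivative_le_of_forall_abs_le_one (k := 1)
    (x := 1) le_rfl hQd hQb
  simp only [Function.iterate_one] at h
  rw [Polynomial.Chebyshev.derivative_T_eval_one] at h
  have h2 : Q.derivative.eval 1 = τ / M * (σ / 2 * P.derivative.eval ξ) := by
    simp [hQ, hL, derivative_comp, eval_comp]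
  rw [h2] at h
  simpa using h

lemma markov {P : ℝ[X]} {d : ℕ} (hd : P.natDegree ≤ d) {M : ℝ} (hM0 : 0 < M)
    (hM : ∀ t ∈ Set.Icc (-1 : ℝ) 1, |P.eval t| ≤ M) :
    ∀ t ∈ Set.Icc (-1 : ℝ) 1, |P.derivative.eval t| ≤ 2 * (d : ℝ) ^ 2 * M := by
  intro ξ hξ
  have key : ∃ σ : ℝ, (σ = 1 ∨ σ = -1) ∧
      ∀ s ∈ Set.Icc (-1 : ℝ) 1, ξ + σ / 2 * (s - 1) ∈ Set.Icc (-1 : ℝ) 1 := by
    rcases le_total 0 ξ with h | h
    · exact ⟨1, Or.inl rfl, fun s hs => ⟨by linarith [hs.1], by linarith [hs.2, hξ.2]⟩⟩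
    · exact ⟨-1, Or.inr rfl, fun s hs => ⟨by linarith [hs.2, hξ.1], by linarith [hs.1]⟩⟩
  obtain ⟨σ, hσ1, hσ2⟩ := key
  have h1 := markov_aux hd hM0 hM (τ := 1) (by simp) hσ2
  have h2 := markov_aux hd hM0 hM (τ := -1) (by simp) hσ2
  rw [div_mul_eq_mul_div, div_le_iff₀ hM0] at h1 h2
  rw [abs_le]
  rcases hσ1 with h | h <;> subst h <;> constructor <;> linarith

lemma coeff_le {d : ℕ} (hd1 : 1 ≤ d) (k : ℕ) : ∀ {P : ℝ[X]} {M : ℝ}, P.natDegree ≤ d → 0 < M →
    (∀ t ∈ Set.Icc (-1 : ℝ) 1, |P.eval t| ≤ M) → |P.coeff k| ≤ (2 * (d : ℝ) ^ 2) ^ k * M := by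
  induction k with
  | zero =>
    intro P M _ _ hM
    rw [coeff_zero_eq_eval_zero, pow_zero, one_mul]
    exact hM 0 ⟨by norm_num, by norm_num⟩
  | succ k ih =>
    intro P M hd hM0 hM
    have hd' : P.derivative.natDegree ≤ d := (natDegree_derivative_le P).trans (by omega)
    have hdpos : (0 : ℝ) < d := by exact_mod_cast hd1
    have h := ih hd' (by positivity) (markov hd hM0 hM)
    rw [coeff_derivative, abs_mul, abs_of_pos (by positivity : (0 : ℝ) < (k : ℝ) + 1)] at h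
    have h1 : |P.coeff (k + 1)| ≤ |P.coeff (k + 1)| * ((k : ℝ) + 1) :=
      le_mul_of_one_le_right (abs_nonneg _) (by linarith [(Nat.cast_nonneg k : (0 : ℝ) ≤ k)])
    calc _ ≤ _ := h1.trans h
      _ = _ := by ring

variable {ι : Type*} [DecidableEq ι]

/-- Coefficient families of degree at most `d` whose polynomial is bounded by one on the cube. -/
def Cls (d : ℕ) (V : Finset ι) (a : Finset ι → ℝ) : Prop :=
  (∀ T ∈ V.powerset, d < T.card → a T = 0) ∧ ∀ x, |ev V a x| ≤ 1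

/-- Homogeneous parts of bounded low degree polynomials are polynomially bounded. -/
lemma abs_ev_level_le {d : ℕ} (hd1 : 1 ≤ d) {V : Finset ι} {a : Finset ι → ℝ} (ha : Cls d V a)
    (k : ℕ) (x : ι → Bool) :
    |ev V (fun T => if T.card = k then a T else 0) x| ≤ (2 * (d : ℝ) ^ 2) ^ k := by
  set P : ℝ[X] := ∑ T ∈ V.powerset, monomial T.card (a T * ∏ i ∈ T, sg (x i)) with hP
  have hdeg : P.natDegree ≤ d := by
    rw [hP]
    refine natDegree_sum_le_of_forall_le _ _ fun T hT => ?_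
    rcases lt_or_ge d T.card with h | h
    · rw [ha.1 T hT h]; simp
    · exact (natDegree_monomial_le _).trans h
  have hb : ∀ t ∈ Set.Icc (-1 : ℝ) 1, |P.eval t| ≤ 1 := by
    intro t ht
    have h1 : P.eval t = mev V a fun i => t * sg (x i) := by
      rw [hP, eval_finsetSum]
      unfold mev
      refine sum_congr rfl fun T _ => ?_
      rw [eval_monomial, prod_mul_distrib, prod_const]
      ring
    rw [h1]
    refine abs_mev_le V a ha.2 fun i => ?_
    rw [abs_mul, abs_sg, mul_one]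
    exact abs_le.2 ht
  have h := coeff_le hd1 k hdeg one_pos hb
  rw [mul_one] at h
  have h2 : P.coeff k = ev V (fun T => if T.card = k then a T else 0) x := by
    rw [hP, finsetSum_coeff]
    unfold ev mev
    refine sum_congr rfl fun T _ => ?_
    rw [coeff_monomial]
    by_cases h : T.card = k <;> simp [h]
  rwa [h2] at h

omit [DecidableEq ι] in
/-- On the first level the sign vector realises the sum of absolute values. -/
lemma ev_level_one (V : Finset ι) (a : Finset ι → ℝ) :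
    ev V (fun T => if T.card = 1 then a T else 0) (fun i => decide (0 ≤ a {i})) =
      ∑ T ∈ V.powerset, if T.card = 1 then |a T| else 0 := by
  unfold ev mev
  refine sum_congr rfl fun T _ => ?_
  by_cases h : T.card = 1
  · obtain ⟨i, rfl⟩ := card_eq_one.1 h
    rw [prod_singleton]
    by_cases h0 : 0 ≤ a {i}
    · simp [sg, h0, abs_of_nonneg h0]
    · simp [sg, h0, abs_of_neg (not_le.1 h0)]
  · simp [h]

end Pool.Agent.Lib.MP_de5887_an
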