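import Pool.Agent.Lib.MP_de5887_an.Hyper

set_option autoImplicit false

open Finset
open scoped BigOperators

namespace Pool.Agent.Lib.MP_de5887_an

lemma pointwise {α R C N w0 : ℝ} {i l : ℕ} (hi : 1 ≤ i) (hl : 1 ≤ l) (hα : 0 ≤ α)
    (hR : α ^ 2 ≤ R) (hC : α ^ 2 ≤ C) (hN : 1 ≤ N) (hw : 1 / ((i : ℝ) + l + 1) ≤ w0) :
    α ^ qq (i + l) ≤ N ^ w0 * (α ^ 2 * R ^ (-1 / ((i : ℝ) + 1)) + α ^ 2 * C ^ (-1 / ((l : ℝ) + 1)) +
      R ^ ((i : ℝ) / ((i : ℝ) + 1)) * C ^ ((l : ℝ) / ((l : ℝ) + 1)) / N) := by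
  have hR0 : 0 ≤ R := (sq_nonneg α).trans hR
  have hC0 : 0 ≤ C := (sq_nonneg α).trans hC
  have hN0 : 0 < N := by linarith
  rcases hα.eq_or_lt with h0 | hpos
  · rw [← h0, Real.zero_rpow (qq_pos (by omega)).ne']
    positivity
  have hRp : 0 < R := lt_of_lt_of_le (by positivity) hR
  have hCp : 0 < C := lt_of_lt_of_le (by positivity) hC
  have hi0 : (0 : ℝ) < i := by exact_mod_cast hi
  have hl0 : (0 : ℝ) < l := by exact_mod_cast hl
  set X := α ^ 2 * R ^ (-1 / ((i : ℝ) + 1)) with hX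
  set Y := α ^ 2 * C ^ (-1 / ((l : ℝ) + 1)) with hY
  set Z := R ^ ((i : ℝ) / ((i : ℝ) + 1)) * C ^ ((l : ℝ) / ((l : ℝ) + 1)) / N with hZ
  have hXp : 0 < X := by positivity
  have hYp : 0 < Y := by positivity
  have hZp : 0 < Z := by positivity
  have hj : (0 : ℝ) < (i : ℝ) + l + 1 := by positivity
  have hAM := Real.geom_mean_le_arith_mean3_weighted (w₁ := (i : ℝ) / ((i : ℝ) + l + 1))
    (w₂ := (l : ℝ) / ((i : ℝ) + l + 1)) (w₃ := 1 / ((i : ℝ) + l + 1)) (p₁ := X) (p₂ := Y) (p₃ := Z)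
    (by positivity) (by positivity) (by positivity) hXp.le hYp.le hZp.le (by field_simp)
  have hid : α ^ qq (i + l) = N ^ (1 / ((i : ℝ) + l + 1)) *
      (X ^ ((i : ℝ) / ((i : ℝ) + l + 1)) * Y ^ ((l : ℝ) / ((i : ℝ) + l + 1)) *
        Z ^ (1 / ((i : ℝ) + l + 1))) := by
    have lX : Real.log X = 2 * Real.log α + -1 / ((i : ℝ) + 1) * Real.log R := by
      rw [hX, Real.log_mul (by positivity) (by positivity), Real.log_pow, Real.log_rpow hRp]
      norm_num
    have lY : Real.log Y = 2 * Real.log α + -1 / ((l : ℝ) + 1) * Real.log C := by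
      rw [hY, Real.log_mul (by positivity) (by positivity), Real.log_pow, Real.log_rpow hCp]
      norm_num
    have lZ : Real.log Z = (i : ℝ) / ((i : ℝ) + 1) * Real.log R +
        (l : ℝ) / ((l : ℝ) + 1) * Real.log C - Real.log N := by
      rw [hZ, Real.log_div (by positivity) (by positivity),
        Real.log_mul (by positivity) (by positivity), Real.log_rpow hRp, Real.log_rpow hCp]
    rw [Real.rpow_def_of_pos hpos, Real.rpow_def_of_pos hN0, Real.rpow_def_of_pos hXp,
      Real.rpow_def_of_pos hYp, Real.rpow_def_of_pos hZp, ← Real.exp_add, ← Real.exp_add,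
      ← Real.exp_add, lX, lY, lZ]
    congr 1
    unfold qq
    push_cast
    field_simp
    ring
  rw [hid]
  refine mul_le_mul (Real.rpow_le_rpow_of_exponent_le hN hw) (hAM.trans ?_) (by positivity)
    (by positivity)
  have e1 : (i : ℝ) / ((i : ℝ) + l + 1) ≤ 1 := by rw [div_le_one hj]; linarith
  have e2 : (l : ℝ) / ((i : ℝ) + l + 1) ≤ 1 := by rw [div_le_one hj]; linarith
  have e3 : 1 / ((i : ℝ) + l + 1) ≤ 1 := by rw [div_le_one hj]; linarith
  have := mul_le_of_le_one_left hXp.le e1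
  have := mul_le_of_le_one_left hYp.le e2
  have := mul_le_of_le_one_left hZp.le e3
  linarith

variable {ι : Type*} [Fintype ι] [DecidableEq ι]

/-- Sum over the levels from `1` to `k`, each with its own exponent. -/
noncomputable def Qs (V : Finset ι) (a : Finset ι → ℝ) (k : ℕ) : ℝ :=
  ∑ T ∈ V.powerset, if 1 ≤ T.card ∧ T.card ≤ k then |a T| ^ qq T.card else 0

/-- The hypercontractive hypothesis. -/
def HC (ι : Type*) [Fintype ι] [DecidableEq ι] (d k0 : ℕ) : Prop :=
  ∀ (V : Finset ι) (b : Finset ι → ℝ) (s : ℕ), 1 ≤ s → k0 < 4 * s →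
    (∀ T ∈ V.powerset, d < T.card → b T = 0) →
    (∑ T ∈ V.powerset, if T.card ≤ 3 * s then b T ^ 2 else 0) ^ ((s : ℝ) / ((s : ℝ) + 1)) ≤
      729 * 𝔼 y, |ev V b y| ^ qq s

/-- Truncated row norms. -/
noncomputable def rho (B : Finset ι) (a : Finset ι → ℝ) (s : Finset ι) : ℝ :=
  ∑ t ∈ B.powerset, if t.card ≤ 3 * s.card then a (s ∪ t) ^ 2 else 0

omit [Fintype ι] in
lemma rho_nonneg (B : Finset ι) (a : Finset ι → ℝ) (s : Finset ι) : 0 ≤ rho B a s :=
  sum_nonneg fun t _ => by split_ifs <;> positivity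

omit [Fintype ι] in
lemma le_rho {B : Finset ι} (a : Finset ι → ℝ) (s : Finset ι) {t : Finset ι}
    (ht : t ∈ B.powerset) (h : t.card ≤ 3 * s.card) : a (s ∪ t) ^ 2 ≤ rho B a s := by
  have := single_le_sum (f := fun t => if t.card ≤ 3 * s.card then a (s ∪ t) ^ 2 else 0)
    (fun t _ => by split_ifs <;> positivity) ht
  simp only [if_pos h] at this
  exact this

lemma rows {d k0 k' : ℕ} {N : ℝ} (hHC : HC ι d k0)
    (hN : ∀ (V : Finset ι) (a : Finset ι → ℝ), Cls d V a → Qs V a k' ≤ N)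
    {A B : Finset ι} (hAB : Disjoint A B) {a : Finset ι → ℝ} (ha : Cls d (A ∪ B) a) :
    (∑ s ∈ A.powerset, if 1 ≤ s.card ∧ s.card ≤ k' ∧ k0 < 4 * s.card then
      rho B a s ^ ((s.card : ℝ) / ((s.card : ℝ) + 1)) else 0) ≤ 729 * N := by
  have hz : ∀ s ∈ A.powerset, ∀ t ∈ B.powerset, d < (s ∪ t).card → a (s ∪ t) = 0 :=
    fun s hs t ht h => ha.1 _
      (mem_powerset.2 (union_subset_union (mem_powerset.1 hs) (mem_powerset.1 ht))) h
  have h1 : ∀ s ∈ A.powerset, (if 1 ≤ s.card ∧ s.card ≤ k' ∧ k0 < 4 * s.card then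
      rho B a s ^ ((s.card : ℝ) / ((s.card : ℝ) + 1)) else 0) ≤
      729 * 𝔼 y, if 1 ≤ s.card ∧ s.card ≤ k' then
        |ev B (fun t => a (s ∪ t)) y| ^ qq s.card else 0 := by
    intro s hs
    by_cases h : 1 ≤ s.card ∧ s.card ≤ k' ∧ k0 < 4 * s.card
    · rw [if_pos h]
      simp only [if_pos (And.intro h.1 h.2.1)]
      exact hHC B (fun t => a (s ∪ t)) s.card h.1 h.2.2 fun t ht hd =>
        hz s hs t ht (hd.trans_le (card_le_card subset_union_right))
    · rw [if_neg h]
      exact mul_nonneg (by norm_num) (expect_nonneg fun y _ => by split_ifs <;> positivity)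
  refine (sum_le_sum h1).trans ?_
  rw [← mul_sum, ← expect_sum_comm]
  refine mul_le_mul_of_nonneg_left (expect_le univ_nonempty fun y _ => ?_) (by norm_num)
  refine hN A (fun s => ev B (fun t => a (s ∪ t)) y) ⟨fun s hs hd => ?_, fun x => ?_⟩
  · unfold ev mev
    refine sum_eq_zero fun t ht => ?_
    simp only [hz s hs t ht (hd.trans_le (card_le_card subset_union_left)), zero_mul]
  · rw [ev_restrict hAB]
    exact ha.2 _

lemma mul_rpow_neg {R : ℝ} (hR : 0 ≤ R) (i : ℕ) :
    R * R ^ (-1 / ((i : ℝ) + 1)) ≤ R ^ ((i : ℝ) / ((i : ℝ) + 1)) := by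
  rcases hR.eq_or_lt with h | h
  · rw [← h, zero_mul]; positivity
  · refine le_of_eq ?_
    have e : (i : ℝ) / ((i : ℝ) + 1) = 1 + -1 / ((i : ℝ) + 1) := by field_simp; ring
    rw [e, Real.rpow_add h, Real.rpow_one]

lemma step_part {d k0 k : ℕ} {N : ℝ} (hN1 : 1 ≤ N) (hHC : HC ι d k0)
    (hN : ∀ (V : Finset ι) (a : Finset ι → ℝ), Cls d V a → Qs V a (3 * k / 4) ≤ N)
    {A B : Finset ι} (hAB : Disjoint A B) {a : Finset ι → ℝ} (ha : Cls d (A ∪ B) a) :
    (∑ s ∈ A.powerset, ∑ t ∈ B.powerset,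
      if (t.card ≤ 3 * s.card ∧ s.card ≤ 3 * t.card) ∧ 3 * k / 4 < s.card + t.card ∧
        s.card + t.card ≤ k ∧ k0 < s.card + t.card then |a (s ∪ t)| ^ qq (s.card + t.card) else 0) ≤
      3 * (729 * N) ^ (1 + 1 / (((3 * k / 4 : ℕ) : ℝ) + 2)) := by
  set k' := 3 * k / 4 with hk'
  set M := 729 * N with hM
  have hM1 : 1 ≤ M := by rw [hM]; linarith
  have hM0 : 0 < M := by linarith
  set w0 : ℝ := 1 / ((k' : ℝ) + 2) with hw0
  have hrow := rows hHC hN hAB ha
  have hcol := rows hHC hN hAB.symm (a := a) (by rw [union_comm]; exact ha)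
  set P : Finset ι → Prop := fun s => 1 ≤ s.card ∧ s.card ≤ k' ∧ k0 < 4 * s.card with hP
  set ξ : Finset ι → ℝ := fun s => if 1 ≤ s.card ∧ s.card ≤ k' ∧ k0 < 4 * s.card then
      rho B a s ^ ((s.card : ℝ) / ((s.card : ℝ) + 1)) else 0 with hξ
  set η : Finset ι → ℝ := fun t => if 1 ≤ t.card ∧ t.card ≤ k' ∧ k0 < 4 * t.card then
      rho A a t ^ ((t.card : ℝ) / ((t.card : ℝ) + 1)) else 0 with hη
  set X : Finset ι → Finset ι → ℝ := fun s t =>
    (if t.card ≤ 3 * s.card then a (s ∪ t) ^ 2 else 0) *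
      (if 1 ≤ s.card ∧ s.card ≤ k' ∧ k0 < 4 * s.card then
        rho B a s ^ (-1 / ((s.card : ℝ) + 1)) else 0) with hX
  set Y : Finset ι → Finset ι → ℝ := fun s t =>
    (if s.card ≤ 3 * t.card then a (t ∪ s) ^ 2 else 0) *
      (if 1 ≤ t.card ∧ t.card ≤ k' ∧ k0 < 4 * t.card then
        rho A a t ^ (-1 / ((t.card : ℝ) + 1)) else 0) with hY
  have hξ0 : ∀ s, 0 ≤ ξ s := fun s => by
    have := rho_nonneg B a s
    simp only [hξ]; split_ifs <;> positivity
  have hη0 : ∀ s, 0 ≤ η s := fun s => by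
    have := rho_nonneg A a s
    simp only [hη]; split_ifs <;> positivity
  have hX0 : ∀ s t, 0 ≤ X s t := fun s t => by
    have := rho_nonneg B a s
    simp only [hX]; split_ifs <;> positivity
  have hY0 : ∀ s t, 0 ≤ Y s t := fun s t => by
    have := rho_nonneg A a t
    simp only [hY]; split_ifs <;> positivity
  have hpt : ∀ s ∈ A.powerset, ∀ t ∈ B.powerset,
      (if (t.card ≤ 3 * s.card ∧ s.card ≤ 3 * t.card) ∧ k' < s.card + t.card ∧
        s.card + t.card ≤ k ∧ k0 < s.card + t.card then |a (s ∪ t)| ^ qq (s.card + t.card) else 0) ≤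
      M ^ w0 * (X s t + Y s t + ξ s * η t / M) := by
    intro s hs t ht
    split_ifs with h
    · obtain ⟨⟨h1, h2⟩, h3, h4, h5⟩ := h
      have hPs : 1 ≤ s.card ∧ s.card ≤ k' ∧ k0 < 4 * s.card := by omega
      have hPt : 1 ≤ t.card ∧ t.card ≤ k' ∧ k0 < 4 * t.card := by omega
      simp only [hX, hY, hξ, hη, if_pos hPs, if_pos hPt, if_pos h1, if_pos h2]
      have hR : |a (s ∪ t)| ^ 2 ≤ rho B a s := by rw [sq_abs]; exact le_rho a s ht h1
      have hC : |a (s ∪ t)| ^ 2 ≤ rho A a t := by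
        rw [sq_abs, union_comm]; exact le_rho a t hs h2
      have hw : 1 / ((s.card : ℝ) + t.card + 1) ≤ w0 := by
        refine one_div_le_one_div_of_le (by positivity) ?_
        have : k' + 1 ≤ s.card + t.card := h3
        have : (k' : ℝ) + 1 ≤ s.card + t.card := by exact_mod_cast this
        linarith
      have := pointwise hPs.1 hPt.1 (abs_nonneg (a (s ∪ t))) hR hC hM1 hw
      rw [sq_abs] at this
      rw [union_comm t s]
      exact this
    · have := hX0 s t
      have := hY0 s t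
      have := hξ0 s
      have := hη0 t
      positivity
  have hsX : ∑ s ∈ A.powerset, ∑ t ∈ B.powerset, X s t ≤ M := by
    refine le_trans (sum_le_sum fun s _ => ?_) hrow
    simp only [hX]
    rw [← sum_mul]
    split_ifs
    · exact mul_rpow_neg (rho_nonneg B a s) _
    · simp
  have hsY : ∑ s ∈ A.powerset, ∑ t ∈ B.powerset, Y s t ≤ M := by
    rw [sum_comm]
    refine le_trans (sum_le_sum fun t _ => ?_) hcol
    simp only [hY]
    rw [← sum_mul]
    split_ifs
    · exact mul_rpow_neg (rho_nonneg A a t) _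
    · simp
  have hsZ : ∑ s ∈ A.powerset, ∑ t ∈ B.powerset, ξ s * η t / M ≤ M := by
    have e : ∑ s ∈ A.powerset, ∑ t ∈ B.powerset, ξ s * η t / M =
        (∑ s ∈ A.powerset, ξ s) * (∑ t ∈ B.powerset, η t) / M := by
      rw [sum_mul_sum, sum_div]
      exact sum_congr rfl fun s _ => by rw [sum_div]
    rw [e, div_le_iff₀ hM0]
    exact mul_le_mul hrow hcol (sum_nonneg fun t _ => hη0 t) hM0.le
  refine (sum_le_sum fun s hs => sum_le_sum fun t ht => hpt s hs t ht).trans ?_
  simp only [← mul_sum, sum_add_distrib]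
  rw [Real.rpow_add hM0, Real.rpow_one]
  have : 0 < M ^ w0 := by positivity
  nlinarith

/-- A random bipartition splits a set of size at least two in a balanced way with probability
at least one ninth. -/
lemma prob_balanced (S : Finset ι) (hS : 2 ≤ S.card) :
    (1 / 9 : ℝ) ≤ 𝔼 ε : ι → Bool,
      if (S.filter fun i => ε i = false).card ≤ 3 * (S.filter fun i => ε i = true).card ∧
        (S.filter fun i => ε i = true).card ≤ 3 * (S.filter fun i => ε i = false).card
      then (1 : ℝ) else 0 := by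
  have hj : (2 : ℝ) ≤ S.card := by exact_mod_cast hS
  have hpt : ∀ ε : ι → Bool, 1 - 4 / ((S.card : ℝ) + 1) ^ 2 * (∑ i ∈ S, sg (ε i)) ^ 2 ≤
      if (S.filter fun i => ε i = false).card ≤ 3 * (S.filter fun i => ε i = true).card ∧
        (S.filter fun i => ε i = true).card ≤ 3 * (S.filter fun i => ε i = false).card
      then (1 : ℝ) else 0 := by
    intro ε
    set p := (S.filter fun i => ε i = true).card with hp
    set m := (S.filter fun i => ε i = false).card with hm
    have hsum : p + m = S.card := by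
      have := card_filter_add_card_filter_not (s := S) (fun i => ε i = true)
      simpa [hp, hm] using this
    have hD : ∑ i ∈ S, sg (ε i) = (p : ℝ) - m := by
      simp only [sg]
      rw [sum_ite]
      simp [hp, hm, sub_eq_add_neg]
    split_ifs with h
    · have : 0 ≤ 4 / ((S.card : ℝ) + 1) ^ 2 * (∑ i ∈ S, sg (ε i)) ^ 2 := by positivity
      linarith
    · rw [hD, sub_nonpos, div_mul_eq_mul_div, le_div_iff₀ (by positivity), ← hsum]
      push_cast
      rcases not_and_or.1 h with h | h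
      · have h1 : 3 * p + 1 ≤ m := by omega
        have h2 : (3 : ℝ) * p + 1 ≤ m := by exact_mod_cast h1
        have h3 : (0 : ℝ) ≤ p := by positivity
        nlinarith
      · have h1 : 3 * m + 1 ≤ p := by omega
        have h2 : (3 : ℝ) * m + 1 ≤ p := by exact_mod_cast h1
        have h3 : (0 : ℝ) ≤ m := by positivity
        nlinarith
  refine le_trans ?_ (expect_le_expect fun ε _ => hpt ε)
  rw [expect_sub_distrib, ← mul_expect, expect_sum_sg_sq, Fintype.expect_const]
  have : 4 / ((S.card : ℝ) + 1) ^ 2 * S.card ≤ 8 / 9 := by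
    rw [div_mul_eq_mul_div, div_le_iff₀ (by positivity)]
    nlinarith
  linarith

lemma step_all {d k0 k : ℕ} {N : ℝ} (hN1 : 1 ≤ N) (hk : 2 ≤ k) (hHC : HC ι d k0)
    (hN : ∀ (V : Finset ι) (a : Finset ι → ℝ), Cls d V a → Qs V a (3 * k / 4) ≤ N)
    {V : Finset ι} {a : Finset ι → ℝ} (ha : Cls d V a) :
    (∑ S ∈ V.powerset, if 3 * k / 4 < S.card ∧ S.card ≤ k ∧ k0 < S.card then
      |a S| ^ qq S.card else 0) ≤ 27 * (729 * N) ^ (1 + 1 / (((3 * k / 4 : ℕ) : ℝ) + 2)) := by
  set F : (ι → Bool) → Finset ι → ℝ := fun ε S =>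
    (if (S.filter fun i => ε i = false).card ≤ 3 * (S.filter fun i => ε i = true).card ∧
        (S.filter fun i => ε i = true).card ≤ 3 * (S.filter fun i => ε i = false).card
      then (1 : ℝ) else 0) * if 3 * k / 4 < S.card ∧ S.card ≤ k ∧ k0 < S.card then
      |a S| ^ qq S.card else 0 with hF
  have h1 : ∀ S ∈ V.powerset, (if 3 * k / 4 < S.card ∧ S.card ≤ k ∧ k0 < S.card then
      |a S| ^ qq S.card else 0) ≤ 9 * 𝔼 ε, F ε S := by
    intro S _
    simp only [hF]
    rw [← expect_mul]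
    split_ifs with h
    · have h2 := prob_balanced S (by omega)
      have h3 : 0 ≤ |a S| ^ qq S.card := by positivity
      nlinarith
    · simp
  refine (sum_le_sum h1).trans ?_
  rw [← mul_sum, ← expect_sum_comm]
  have h2 : ∀ ε : ι → Bool, ∑ S ∈ V.powerset, F ε S ≤
      3 * (729 * N) ^ (1 + 1 / (((3 * k / 4 : ℕ) : ℝ) + 2)) := by
    intro ε
    set A := V.filter fun i => ε i = true with hA
    set B := V.filter fun i => ε i = false with hB
    have hAB : Disjoint A B := by
      rw [hA, hB, disjoint_filter]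
      intro i _ h; simp [h]
    have hV : A ∪ B = V := by
      ext i
      simp only [hA, hB, mem_union, mem_filter]
      cases ε i <;> simp
    refine le_trans (le_of_eq ?_) (step_part hN1 hHC hN hAB (a := a) (hV ▸ ha))
    conv_lhs => rw [← hV]
    rw [sum_split hAB]
    refine sum_congr rfl fun s hs => sum_congr rfl fun t ht => ?_
    have hs' := mem_powerset.1 hs
    have ht' := mem_powerset.1 ht
    have e1 : (s ∪ t).filter (fun i => ε i = true) = s := by
      ext i
      simp only [mem_filter, mem_union]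
      constructor
      · rintro ⟨h | h, h'⟩
        · exact h
        · have := (mem_filter.1 (ht' h)).2
          rw [this] at h'; exact absurd h' (by simp)
      · intro h; exact ⟨Or.inl h, (mem_filter.1 (hs' h)).2⟩
    have e2 : (s ∪ t).filter (fun i => ε i = false) = t := by
      ext i
      simp only [mem_filter, mem_union]
      constructor
      · rintro ⟨h | h, h'⟩
        · have := (mem_filter.1 (hs' h)).2
          rw [this] at h'; exact absurd h' (by simp)
        · exact h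
      · intro h; exact ⟨Or.inr h, (mem_filter.1 (ht' h)).2⟩
    have e3 : (s ∪ t).card = s.card + t.card := card_union_of_disjoint (hAB.mono hs' ht')
    simp only [hF, e1, e2, e3]
    by_cases c1 : t.card ≤ 3 * s.card ∧ s.card ≤ 3 * t.card <;>
      by_cases c2 : 3 * k / 4 < s.card + t.card ∧ s.card + t.card ≤ k ∧ k0 < s.card + t.card <;>
      simp [c1, c2]
  have := expect_le univ_nonempty fun ε _ => h2 ε
  linarith

end Pool.Agent.Lib.MP_de5887_an
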